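import Pool.Agent.H26.REM.Targets

set_option autoImplicit false

/-!
# MP_c65535_nt: row INR, the rank of the lattice of the pairs
-/

namespace Pool.Agent.H89.REM

open NumberField Height Finset Polynomial Pool.Agent.H26.REM

/-- The pair of values, as a map linear over the rational numbers. -/
noncomputable def inrF {K M S : Type} [Field K] [NumberField K] [Field M] [NumberField M]
    [Algebra K M] [Fintype S] (φ : K ≃+* K) (p : ℕ) (Y : S → M) : (S → K) →ₗ[ℚ] M × M where
  toFun c := (∑ b, algebraMap K M (c b) * Y b, ∑ b, algebraMap K M (φ (c b)) * Y b ^ p)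
  map_add' c d := by
    ext
    · simp [add_mul, Finset.sum_add_distrib]
    · simp [add_mul, Finset.sum_add_distrib]
  map_smul' q c := by
    ext
    · simp only [Pi.smul_apply, Rat.smul_def, map_mul, map_ratCast, RingHom.id_apply,
        Prod.smul_fst, Finset.mul_sum, mul_assoc]
    · simp only [Pi.smul_apply, Rat.smul_def, map_mul, map_ratCast, RingHom.id_apply,
        Prod.smul_snd, Finset.mul_sum, mul_assoc]

theorem inr_mem {K M S : Type} [Field K] [NumberField K] [Field M] [NumberField M]
    [Algebra K M] [Fintype S] (φ : K ≃+* K) (p : ℕ) (Y : S → M) (c : S → K) :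
    inrF φ p Y c ∈ Submodule.span ℚ (Lam φ p Y : Set (M × M)) := by
  classical
  have key : ∀ (b : S) (x : K), inrF φ p Y (Pi.single b x) ∈
      Submodule.span ℚ (Lam φ p Y : Set (M × M)) := by
    intro b x
    have hx : IsAlgebraic ℤ x := (IsFractionRing.isAlgebraic_iff ℤ ℚ K).2
      (Algebra.IsAlgebraic.isAlgebraic x)
    obtain ⟨N, hN, hI⟩ := hx.exists_integral_multiple
    have hNq : (N : ℚ) ≠ 0 := Int.cast_ne_zero.2 hN
    let y : 𝓞 K := ⟨N • x, hI⟩
    have e1 : inrF φ p Y (Pi.single b (y : K)) ∈
        Submodule.span ℚ (Lam φ p Y : Set (M × M)) := by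
      refine Submodule.subset_span ⟨Pi.single b y, ?_⟩
      have e2 : ∀ a : S, ((Pi.single b y : S → 𝓞 K) a : K) = (Pi.single b (y : K) : S → K) a := by
        intro a
        by_cases h : a = b
        · subst h
          simp
        · simp [h]
      change ((∑ a, algebraMap K M (((Pi.single b y : S → 𝓞 K) a : 𝓞 K) : K) * Y a,
        ∑ a, algebraMap K M (φ (((Pi.single b y : S → 𝓞 K) a : 𝓞 K) : K)) * Y a ^ p) : M × M) =
        (∑ a, algebraMap K M ((Pi.single b (y : K) : S → K) a) * Y a,
          ∑ a, algebraMap K M (φ ((Pi.single b (y : K) : S → K) a)) * Y a ^ p)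
      simp only [e2]
    have e3 : (Pi.single b x : S → K) = (N : ℚ)⁻¹ • (Pi.single b (y : K) : S → K) := by
      funext a
      by_cases h : a = b
      · subst h
        have : ((y : 𝓞 K) : K) = N • x := rfl
        simp only [Pi.smul_apply, Pi.single_eq_same, this, zsmul_eq_mul, Rat.smul_def]
        push_cast
        have hNK : (N : K) ≠ 0 := Int.cast_ne_zero.2 hN
        field_simp
      · simp [h]
    rw [e3, map_smul]
    exact Submodule.smul_mem _ _ e1
  have hc : c = ∑ b, Pi.single b (c b) := (Finset.univ_sum_single c).symm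
  rw [hc, map_sum]
  exact Submodule.sum_mem _ fun b _ => key b (c b)

theorem pf_INR : T_INR := by
  intro K M _ _ _ _ _ φ p S _ Y r2 c hc0 hli
  classical
  set W := Submodule.span ℚ (Lam φ p Y : Set (M × M)) with hW
  let f : W →ₗ[ℚ] M := (LinearMap.fst ℚ M M).comp W.subtype
  have hrn := LinearMap.finrank_range_add_finrank_ker f
  -- the image
  have hU : (Submodule.span K (Set.range Y)).restrictScalars ℚ ≤ LinearMap.range f := by
    intro y hy
    rw [Submodule.restrictScalars_mem, Submodule.mem_span_range_iff_exists_fun] at hy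
    obtain ⟨d, hd⟩ := hy
    refine ⟨⟨inrF φ p Y d, inr_mem φ p Y d⟩, ?_⟩
    rw [← hd]
    change ∑ b, algebraMap K M (d b) * Y b = _
    exact Finset.sum_congr rfl fun b _ => (Algebra.smul_def _ _).symm
  have h1 : Module.finrank ℚ K * Module.finrank K (Submodule.span K (Set.range Y)) ≤
      Module.finrank ℚ (LinearMap.range f) := by
    have h2 := Module.finrank_mul_finrank ℚ K (Submodule.span K (Set.range Y))
    rw [h2]
    exact Submodule.finrank_mono hU
  -- the kernel
  have h3 : Module.finrank ℚ K * r2 ≤ Module.finrank ℚ (LinearMap.ker f) := by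
    let g0 : (Fin r2 → K) →ₗ[ℚ] (S → K) :=
      { toFun := fun a b => ∑ i, a i * c i b
        map_add' := fun a a' => by
          funext b
          simp [add_mul, Finset.sum_add_distrib]
        map_smul' := fun q a => by
          funext b
          simp [Finset.smul_sum] }
    have hg0 : ∀ a b, g0 a b = ∑ i, a i * c i b := fun a b => rfl
    let g1 : (Fin r2 → K) →ₗ[ℚ] W :=
      LinearMap.codRestrict W ((inrF φ p Y).comp g0) fun a => inr_mem φ p Y _
    have hfst : ∀ a, (inrF φ p Y (g0 a)).1 = 0 := by
      intro a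
      change ∑ b, algebraMap K M (g0 a b) * Y b = 0
      simp only [hg0, map_sum, map_mul, Finset.sum_mul]
      rw [Finset.sum_comm]
      refine Finset.sum_eq_zero fun i _ => ?_
      simp only [mul_assoc]
      rw [← Finset.mul_sum, hc0 i, mul_zero]
    have hsnd : ∀ a, (inrF φ p Y (g0 a)).2 =
        ∑ i, φ (a i) • ∑ b, algebraMap K M (φ (c i b)) * Y b ^ p := by
      intro a
      change ∑ b, algebraMap K M (φ (g0 a b)) * Y b ^ p = _
      simp only [hg0, map_sum, map_mul, Finset.sum_mul]
      rw [Finset.sum_comm]
      refine Finset.sum_congr rfl fun i _ => ?_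
      simp only [mul_assoc]
      rw [← Finset.mul_sum, Algebra.smul_def]
    let g : (Fin r2 → K) →ₗ[ℚ] LinearMap.ker f :=
      LinearMap.codRestrict (LinearMap.ker f) g1 fun a => hfst a
    have hinj : Function.Injective g := by
      refine (injective_iff_map_eq_zero g).2 fun a ha => ?_
      have h4 : (inrF φ p Y (g0 a)).2 = 0 := by
        have h5 : ((g a : W) : M × M) = 0 := by rw [ha]; rfl
        have h6 : inrF φ p Y (g0 a) = 0 := h5
        rw [h6]
        rfl
      rw [hsnd] at h4
      have h7 := Fintype.linearIndependent_iff.1 hli (fun i => φ (a i)) h4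
      funext i
      exact (map_eq_zero_iff φ φ.injective).1 (h7 i)
    have h8 := LinearMap.finrank_le_finrank_of_injective hinj
    rw [Module.finrank_pi_fintype] at h8
    simp only [Finset.sum_const, Finset.card_univ, Fintype.card_fin, smul_eq_mul] at h8
    rw [mul_comm]
    exact h8
  rw [mul_add, ← hrn]
  exact add_le_add h1 h3

end Pool.Agent.H89.REM
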